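import Mathlib

set_option autoImplicit false

namespace Pool.Agent.Lib.MP_aa5d6e_co

/-- Either the two rim vertices with three colours can be completed, or the lists are very special. -/
lemma ext_or {P Q : Finset ℕ} (hP : P.card = 3) (hQ : Q.card = 3) (h a c : ℕ) :
    (∃ p ∈ P, ∃ q ∈ Q, p ≠ h ∧ p ≠ c ∧ q ≠ h ∧ q ≠ a ∧ p ≠ q) ∨
      ∃ x, P = {x, h, c} ∧ Q = {x, h, a} := by
  classical
  by_cases hne : ∃ p ∈ P, ∃ q ∈ Q, p ≠ h ∧ p ≠ c ∧ q ≠ h ∧ q ≠ a ∧ p ≠ q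
  · exact Or.inl hne
  · right
    push Not at hne
    have hP' : ∃ p ∈ P, p ≠ h ∧ p ≠ c := by
      by_contra hcon
      push Not at hcon
      have hsub : P ⊆ {h, c} := by
        intro p hp
        by_cases hph : p = h
        · simp [hph]
        · simp [hcon p hp hph]
      have := Finset.card_le_card hsub
      have h2 := Finset.card_le_two (a := h) (b := c)
      omega
    have hQ' : ∃ q ∈ Q, q ≠ h ∧ q ≠ a := by
      by_contra hcon
      push Not at hcon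
      have hsub : Q ⊆ {h, a} := by
        intro p hp
        by_cases hph : p = h
        · simp [hph]
        · simp [hcon p hp hph]
      have := Finset.card_le_card hsub
      have h2 := Finset.card_le_two (a := h) (b := a)
      omega
    obtain ⟨p, hp, hph, hpc⟩ := hP'
    obtain ⟨q, hq, hqh, hqa⟩ := hQ'
    have hpq : p = q := hne p hp q hq hph hpc hqh hqa
    subst hpq
    refine ⟨p, ?_, ?_⟩
    · apply Finset.eq_of_subset_of_card_le
      · intro r hr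
        by_cases hrh : r = h
        · simp [hrh]
        · by_cases hrc : r = c
          · simp [hrc]
          · have := hne r hr p hq hrh hrc hqh hqa
            simp [this]
      · rw [hP]; exact Finset.card_le_three
    · apply Finset.eq_of_subset_of_card_le
      · intro r hr
        by_cases hrh : r = h
        · simp [hrh]
        · by_cases hra : r = a
          · simp [hra]
          · have := hne p hp r hr hph hpc hrh hra
            simp [this]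
      · rw [hQ]; exact Finset.card_le_three

lemma ne_of_card_three {x h c : ℕ} (hc : ({x, h, c} : Finset ℕ).card = 3) :
    x ≠ h ∧ x ≠ c ∧ h ≠ c := by
  refine ⟨?_, ?_, ?_⟩
  · rintro rfl
    have := Finset.card_le_two (a := x) (b := c)
    simp at hc
    omega
  · rintro rfl
    have h1 : ({x, h, x} : Finset ℕ) = {x, h} := by
      ext y; simp; tauto
    rw [h1] at hc
    have := Finset.card_le_two (a := x) (b := h)
    omega
  · rintro rfl
    have := Finset.card_le_two (a := x) (b := h)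
    simp at hc
    omega

lemma blocked0 {a₁ a₂ b₁ b₂ c₁ c₂ h : ℕ} (ha : a₁ ≠ a₂) (hb : b₁ ≠ b₂) (hc : c₁ ≠ c₂)
    (h1 : h = a₁ ∨ h = b₁ ∨ h = c₁ ∨ a₁ = b₁ ∨ b₁ = c₁)
    (h2 : h = a₁ ∨ h = b₁ ∨ h = c₂ ∨ a₁ = b₁ ∨ b₁ = c₂)
    (h3 : h = a₁ ∨ h = b₂ ∨ h = c₁ ∨ a₁ = b₂ ∨ b₂ = c₁)
    (h4 : h = a₁ ∨ h = b₂ ∨ h = c₂ ∨ a₁ = b₂ ∨ b₂ = c₂)
    (h5 : h = a₂ ∨ h = b₁ ∨ h = c₁ ∨ a₂ = b₁ ∨ b₁ = c₁)
    (h6 : h = a₂ ∨ h = b₁ ∨ h = c₂ ∨ a₂ = b₁ ∨ b₁ = c₂)
    (h7 : h = a₂ ∨ h = b₂ ∨ h = c₁ ∨ a₂ = b₂ ∨ b₂ = c₁)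
    (h8 : h = a₂ ∨ h = b₂ ∨ h = c₂ ∨ a₂ = b₂ ∨ b₂ = c₂) :
    ((a₁ = b₁ ∧ a₂ = b₂) ∨ (a₁ = b₂ ∧ a₂ = b₁)) ∨ ((b₁ = c₁ ∧ b₂ = c₂) ∨ (b₁ = c₂ ∧ b₂ = c₁)) ∨
      (∃ a c, a ≠ c ∧ h ≠ a ∧ h ≠ c ∧ ((a₁ = h ∧ a₂ = a) ∨ (a₁ = a ∧ a₂ = h)) ∧
        ((c₁ = h ∧ c₂ = c) ∨ (c₁ = c ∧ c₂ = h)) ∧ ((b₁ = a ∧ b₂ = c) ∨ (b₁ = c ∧ b₂ = a))) := by
  by_contra hcon
  push Not at hcon
  obtain ⟨hc1, hc2, hc3⟩ := hcon
  have e1 := hc3 a₁ c₁
  have e2 := hc3 a₁ c₂
  have e3 := hc3 a₂ c₁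
  have e4 := hc3 a₂ c₂
  clear hc3
  grind (splits := 60)

/-- the analysis of a colour `h` of the hub which does not extend to the three rim vertices with two
colours. -/
lemma blocked {A B C : Finset ℕ} (hA : A.card = 2) (hB : B.card = 2) (hC : C.card = 2) {h : ℕ}
    (hbl : ∀ a ∈ A, ∀ b ∈ B, ∀ c ∈ C, h ≠ a → h ≠ b → h ≠ c → a ≠ b → b ≠ c → False) :
    A = B ∨ B = C ∨
      (∃ a c, a ≠ c ∧ h ≠ a ∧ h ≠ c ∧ A = {h, a} ∧ C = {h, c} ∧ B = {a, c}) := by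
  obtain ⟨a₁, a₂, ha, rfl⟩ := Finset.card_eq_two.mp hA
  obtain ⟨b₁, b₂, hb, rfl⟩ := Finset.card_eq_two.mp hB
  obtain ⟨c₁, c₂, hc, rfl⟩ := Finset.card_eq_two.mp hC
  have key : ∀ a ∈ ({a₁, a₂} : Finset ℕ), ∀ b ∈ ({b₁, b₂} : Finset ℕ),
      ∀ c ∈ ({c₁, c₂} : Finset ℕ), h = a ∨ h = b ∨ h = c ∨ a = b ∨ b = c := by
    intro a ha b hb c hc
    by_contra hcon
    push Not at hcon
    exact hbl a ha b hb c hc hcon.1 hcon.2.1 hcon.2.2.1 hcon.2.2.2.1 hcon.2.2.2.2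
  have ma₁ : a₁ ∈ ({a₁, a₂} : Finset ℕ) := by simp
  have ma₂ : a₂ ∈ ({a₁, a₂} : Finset ℕ) := by simp
  have mb₁ : b₁ ∈ ({b₁, b₂} : Finset ℕ) := by simp
  have mb₂ : b₂ ∈ ({b₁, b₂} : Finset ℕ) := by simp
  have mc₁ : c₁ ∈ ({c₁, c₂} : Finset ℕ) := by simp
  have mc₂ : c₂ ∈ ({c₁, c₂} : Finset ℕ) := by simp
  rcases blocked0 ha hb hc (key _ ma₁ _ mb₁ _ mc₁) (key _ ma₁ _ mb₁ _ mc₂) (key _ ma₁ _ mb₂ _ mc₁)
    (key _ ma₁ _ mb₂ _ mc₂) (key _ ma₂ _ mb₁ _ mc₁) (key _ ma₂ _ mb₁ _ mc₂)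
    (key _ ma₂ _ mb₂ _ mc₁) (key _ ma₂ _ mb₂ _ mc₂) with (h1 | h1) | (h1 | h1) | h1
  · left; rw [h1.1, h1.2]
  · left; rw [h1.1, h1.2, Finset.pair_comm]
  · right; left; rw [h1.1, h1.2]
  · right; left; rw [h1.1, h1.2, Finset.pair_comm]
  · right; right
    obtain ⟨a, c, hac, hha, hhc, hA', hC', hB'⟩ := h1
    refine ⟨a, c, hac, hha, hhc, ?_, ?_, ?_⟩
    · rcases hA' with h | h
      · rw [h.1, h.2]
      · rw [h.1, h.2, Finset.pair_comm]
    · rcases hC' with h | h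
      · rw [h.1, h.2]
      · rw [h.1, h.2, Finset.pair_comm]
    · rcases hB' with h | h
      · rw [h.1, h.2]
      · rw [h.1, h.2, Finset.pair_comm]

/-- The case where the two consecutive rim vertices `v₃, v₄` have the same list of two colours. -/
lemma case_eq {H P Q A C : Finset ℕ} (hH : H.card = 4) (hP : P.card = 3) (hQ : Q.card = 3)
    (hA : A.card = 2) (hC : C.card = 2)
    (key : ∀ h ∈ H, ∀ a ∈ A, ∀ b ∈ A, ∀ c ∈ C, h ≠ a → h ≠ b → h ≠ c → a ≠ b → b ≠ c →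
      ∃ x, P = {x, h, c} ∧ Q = {x, h, a}) : False := by
  classical
  obtain ⟨s, t, hst, rfl⟩ := Finset.card_eq_two.mp hA
  have ms : s ∈ ({s, t} : Finset ℕ) := by simp
  have mt : t ∈ ({s, t} : Finset ℕ) := by simp
  -- two elements of H outside {s,t}
  have h2 : 1 < (H \ {s, t}).card := by
    have := Finset.le_card_sdiff ({s, t} : Finset ℕ) H
    rw [hA, hH] at this
    omega
  obtain ⟨h, hh, h', hh', hne⟩ := Finset.one_lt_card.mp h2
  simp only [Finset.mem_sdiff, Finset.mem_insert, Finset.mem_singleton, not_or] at hh hh'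
  -- every colour of C other than h is s or t
  have step : ∀ h ∈ H, h ≠ s → h ≠ t → ∀ c ∈ C, c ≠ h → c = s ∨ c = t := by
    intro h hh hs ht c hc hch
    by_contra hcon
    push Not at hcon
    obtain ⟨x, hx1, hx2⟩ := key h hh s ms t mt c hc hs ht (Ne.symm hch) hst (Ne.symm hcon.2)
    obtain ⟨y, hy1, hy2⟩ := key h hh t mt s ms c hc ht hs (Ne.symm hch) (Ne.symm hst)
      (Ne.symm hcon.1)
    have c1 := ne_of_card_three (hx1 ▸ hP)
    have c2 := ne_of_card_three (hy1 ▸ hP)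
    have c3 := ne_of_card_three (hx2 ▸ hQ)
    have c4 := ne_of_card_three (hy2 ▸ hQ)
    have hxy : x = y := by
      have : x ∈ ({y, h, c} : Finset ℕ) := by rw [← hy1, hx1]; simp
      simp only [Finset.mem_insert, Finset.mem_singleton] at this
      rcases this with h1 | h1 | h1
      · exact h1
      · exact absurd h1 c1.1
      · exact absurd h1 c1.2.1
    subst hxy
    have : s ∈ ({x, h, t} : Finset ℕ) := by rw [← hy2, hx2]; simp
    simp only [Finset.mem_insert, Finset.mem_singleton] at this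
    rcases this with h1 | h1 | h1
    · exact c3.2.1 h1.symm
    · exact c3.2.2 h1.symm
    · exact hst h1
  have hCst : C = {s, t} := by
    apply Finset.eq_of_subset_of_card_le
    · intro c hc
      by_cases hch : c = h
      · have := step h' hh'.1 hh'.2.1 hh'.2.2 c hc (by rw [hch]; exact hne)
        simpa using this
      · have := step h hh.1 hh.2.1 hh.2.2 c hc hch
        simpa using this
    · rw [hC, hA]
  have step2 : ∀ h ∈ H, h ≠ s → h ≠ t → P = {s, t, h} := by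
    intro h hh hs ht
    obtain ⟨x, hx1, hx2⟩ := key h hh s ms t mt s (by rw [hCst]; simp) hs ht hs hst (Ne.symm hst)
    obtain ⟨y, hy1, hy2⟩ := key h hh t mt s ms t (by rw [hCst]; simp) ht hs ht (Ne.symm hst) hst
    symm
    apply Finset.eq_of_subset_of_card_le
    · intro z hz
      simp only [Finset.mem_insert, Finset.mem_singleton] at hz
      rcases hz with rfl | rfl | rfl
      · rw [hx1]; simp
      · rw [hy1]; simp
      · rw [hx1]; simp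
    · rw [hP]
      have : ({s, t, h} : Finset ℕ).card = 3 := by
        rw [Finset.card_eq_three]
        exact ⟨s, t, h, hst, Ne.symm hs, Ne.symm ht, rfl⟩
      omega
  have e1 := step2 h hh.1 hh.2.1 hh.2.2
  have e2 := step2 h' hh'.1 hh'.2.1 hh'.2.2
  have : h ∈ ({s, t, h'} : Finset ℕ) := by rw [← e2, e1]; simp
  simp only [Finset.mem_insert, Finset.mem_singleton] at this
  rcases this with h1 | h1 | h1
  · exact hh.2.1 h1
  · exact hh.2.2 h1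
  · exact hne h1

/-- The wheel with five spokes is choosable from lists of sizes 4 (hub), 3, 3, 2, 2, 2 (rim). -/
lemma wheel_exact {H P Q A B C : Finset ℕ} (hH : H.card = 4) (hP : P.card = 3) (hQ : Q.card = 3)
    (hA : A.card = 2) (hB : B.card = 2) (hC : C.card = 2) :
    ∃ h ∈ H, ∃ p ∈ P, ∃ q ∈ Q, ∃ a ∈ A, ∃ b ∈ B, ∃ c ∈ C,
      h ≠ p ∧ h ≠ q ∧ h ≠ a ∧ h ≠ b ∧ h ≠ c ∧ p ≠ q ∧ q ≠ a ∧ a ≠ b ∧ b ≠ c ∧ c ≠ p := by
  classical
  by_contra hcon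
  push Not at hcon
  have key : ∀ h ∈ H, ∀ a ∈ A, ∀ b ∈ B, ∀ c ∈ C, h ≠ a → h ≠ b → h ≠ c → a ≠ b → b ≠ c →
      ∃ x, P = {x, h, c} ∧ Q = {x, h, a} := by
    intro h hh a ha b hb c hc h1 h2 h3 h4 h5
    rcases ext_or hP hQ h a c with ⟨p, hp, q, hq, e1, e2, e3, e4, e5⟩ | h6
    · exact absurd (hcon h hh p hp q hq a ha b hb c hc (Ne.symm e1) (Ne.symm e3) h1 h2 h3 e5 e4 h4
        h5) (by simpa using Ne.symm e2)
    · exact h6
  -- a colour of the hub outside P ∩ Q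
  have hex : ∃ h ∈ H, h ∉ P ∩ Q := by
    by_contra hc
    push Not at hc
    have h1 := Finset.card_le_card (fun x hx => hc x hx : H ⊆ P ∩ Q)
    have h2 := Finset.card_le_card (Finset.inter_subset_left : P ∩ Q ⊆ P)
    omega
  obtain ⟨h₀, hh₀, hn⟩ := hex
  have hbl : ∀ a ∈ A, ∀ b ∈ B, ∀ c ∈ C, h₀ ≠ a → h₀ ≠ b → h₀ ≠ c → a ≠ b → b ≠ c → False := by
    intro a ha b hb c hc h1 h2 h3 h4 h5
    obtain ⟨x, hx1, hx2⟩ := key h₀ hh₀ a ha b hb c hc h1 h2 h3 h4 h5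
    apply hn
    rw [Finset.mem_inter, hx1, hx2]
    simp
  rcases blocked hA hB hC hbl with h1 | h1 | ⟨a, c, hac, hha, hhc, eA, eC, eB⟩
  · subst h1
    exact case_eq hH hP hQ hA hC key
  · subst h1
    apply case_eq hH hQ hP hB hA
    intro h hh a ha b hb c hc h1 h2 h3 h4 h5
    obtain ⟨x, hx1, hx2⟩ := key h hh c hc b hb a ha h3 h2 h1 (Ne.symm h5) (Ne.symm h4)
    exact ⟨x, hx2, hx1⟩
  · -- A = {h₀, a}, C = {h₀, c}, B = {a, c}
    have hex : ∃ h ∈ H, h ∉ ({h₀, a, c} : Finset ℕ) := by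
      by_contra hc
      push Not at hc
      have h1 := Finset.card_le_card (fun x hx => hc x hx : H ⊆ {h₀, a, c})
      have h2 := Finset.card_le_three (a := h₀) (b := a) (c := c)
      omega
    obtain ⟨h, hh, hhn⟩ := hex
    simp only [Finset.mem_insert, Finset.mem_singleton, not_or] at hhn
    obtain ⟨g1, g2, g3⟩ := hhn
    obtain ⟨x, hx1, hx2⟩ := key h hh h₀ (by rw [eA]; simp) a (by rw [eB]; simp) h₀ (by rw [eC]; simp)
      g1 g2 g1 hha (Ne.symm hha)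
    obtain ⟨y, hy1, hy2⟩ := key h hh h₀ (by rw [eA]; simp) a (by rw [eB]; simp) c (by rw [eC]; simp)
      g1 g2 g3 hha hac
    have c1 := ne_of_card_three (hy1 ▸ hP)
    have c2 := ne_of_card_three (hy2 ▸ hQ)
    have hPQ : P = Q := by rw [hx1, hx2]
    have : c ∈ ({y, h, h₀} : Finset ℕ) := by rw [← hy2, ← hPQ, hy1]; simp
    simp only [Finset.mem_insert, Finset.mem_singleton] at this
    rcases this with h1 | h1 | h1
    · exact c1.2.1 h1.symm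
    · exact c1.2.2 h1.symm
    · exact hhc h1.symm

/-- The wheel with five spokes is choosable from lists of sizes at least 4 (hub), 3, 3, 2, 2, 2. -/
lemma wheel {H P Q A B C : Finset ℕ} (hH : 4 ≤ H.card) (hP : 3 ≤ P.card) (hQ : 3 ≤ Q.card)
    (hA : 2 ≤ A.card) (hB : 2 ≤ B.card) (hC : 2 ≤ C.card) :
    ∃ h ∈ H, ∃ p ∈ P, ∃ q ∈ Q, ∃ a ∈ A, ∃ b ∈ B, ∃ c ∈ C,
      h ≠ p ∧ h ≠ q ∧ h ≠ a ∧ h ≠ b ∧ h ≠ c ∧ p ≠ q ∧ q ≠ a ∧ a ≠ b ∧ b ≠ c ∧ c ≠ p := by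
  obtain ⟨H', sH, cH⟩ := Finset.exists_subset_card_eq hH
  obtain ⟨P', sP, cP⟩ := Finset.exists_subset_card_eq hP
  obtain ⟨Q', sQ, cQ⟩ := Finset.exists_subset_card_eq hQ
  obtain ⟨A', sA, cA⟩ := Finset.exists_subset_card_eq hA
  obtain ⟨B', sB, cB⟩ := Finset.exists_subset_card_eq hB
  obtain ⟨C', sC, cC⟩ := Finset.exists_subset_card_eq hC
  obtain ⟨h, hh, p, hp, q, hq, a, ha, b, hb, c, hc, hrest⟩ := wheel_exact cH cP cQ cA cB cC
  exact ⟨h, sH hh, p, sP hp, q, sQ hq, a, sA ha, b, sB hb, c, sC hc, hrest⟩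

end Pool.Agent.Lib.MP_aa5d6e_co
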