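import Mathlib
import Pool.Agent.Lib.MP_aa5d6e_co.Wheel

set_option autoImplicit false

namespace Pool.Agent.Lib.MP_aa5d6e_co

open Finset

/-- The index set: pairs of disjoint 5-element subsets of the twenty-one base colours `0, …, 20`. -/
@[irreducible] def I : Finset (Finset ℕ × Finset ℕ) :=
  (((range 21).powersetCard 5) ×ˢ ((range 21).powersetCard 5)).filter (fun p => Disjoint p.1 p.2)

lemma mem_I {X Y : Finset ℕ} : (X, Y) ∈ I ↔
    ((X ⊆ range 21 ∧ X.card = 5) ∧ (Y ⊆ range 21 ∧ Y.card = 5)) ∧ Disjoint X Y := by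
  unfold I
  simp [mem_powersetCard]

/-- Vertices: two base vertices, and for each index in `I` the six vertices of a wheel. -/
abbrev V : Type := Bool ⊕ ({p // p ∈ I} × Fin 6)

/-- Edges of the wheel with hub `0` and rim `1, 2, 3, 4, 5` (one direction of each edge). -/
def W (i j : Fin 6) : Prop :=
  (i = 0 ∧ j ≠ 0) ∨ (i = 1 ∧ j = 2) ∨ (i = 2 ∧ j = 3) ∨ (i = 3 ∧ j = 4) ∨ (i = 4 ∧ j = 5) ∨
    (i = 5 ∧ j = 1)

/-- The (directed) edge relation of the graph. -/
def R : V → V → Prop
  | Sum.inl x, Sum.inl y => x = false ∧ y = true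
  | Sum.inl x, Sum.inr (_, j) => (x = false ∧ j ≠ 0) ∨ (x = true ∧ 3 ≤ j.val)
  | Sum.inr _, Sum.inl _ => False
  | Sum.inr (p, i), Sum.inr (q, j) => p = q ∧ W i j

/-- The graph. -/
def G : SimpleGraph V := SimpleGraph.fromRel R

lemma not_R_self (v : V) : ¬ R v v := by
  rcases v with x | ⟨p, i⟩
  · rintro ⟨h1, h2⟩
    rw [h1] at h2
    exact absurd h2 (by decide)
  · rintro ⟨-, h⟩
    unfold W at h
    fin_cases i <;> simp at h

lemma R_adj {u v : V} (h : R u v) : G.Adj u v := by
  refine ⟨?_, Or.inl h⟩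
  rintro rfl
  exact not_R_self _ h

lemma adj_cases {u v : V} (h : G.Adj u v) : R u v ∨ R v u := h.2

/-- every assignment of lists of size 4 admits a proper colouring. -/
lemma four_choosable (L : V → Finset ℕ) (hL : ∀ v, (L v).card = 4) :
    ∃ c : V → ℕ, (∀ v, c v ∈ L v) ∧ ∀ u v, G.Adj u v → c u ≠ c v := by
  classical
  obtain ⟨x₀, hx₀⟩ : (L (Sum.inl false)).Nonempty := by
    rw [← card_pos, hL]; norm_num
  obtain ⟨x₁, hx₁⟩ : ((L (Sum.inl true)).erase x₀).Nonempty := by
    rw [← card_pos]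
    have := pred_card_le_card_erase (s := L (Sum.inl true)) (a := x₀)
    rw [hL] at this
    omega
  rw [mem_erase] at hx₁
  have e1 : ∀ v, 3 ≤ ((L v).erase x₀).card := by
    intro v
    have := pred_card_le_card_erase (s := L v) (a := x₀)
    rw [hL] at this
    omega
  have e2 : ∀ v, 2 ≤ (((L v).erase x₀).erase x₁).card := by
    intro v
    have := pred_card_le_card_erase (s := (L v).erase x₀) (a := x₁)
    have := e1 v
    omega
  have key : ∀ p : {p // p ∈ I}, ∃ g : Fin 6 → ℕ, (∀ i, g i ∈ L (Sum.inr (p, i))) ∧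
      (∀ i, i ≠ 0 → g i ≠ x₀) ∧ (∀ i : Fin 6, 3 ≤ i.val → g i ≠ x₁) ∧
      (∀ i j, W i j → g i ≠ g j) := by
    intro p
    obtain ⟨h, hh, a, ha, b, hb, c, hc, d, hd, e, he, n1, n2, n3, n4, n5, n6, n7, n8, n9, n10⟩ :=
      wheel (H := L (Sum.inr (p, 0))) (P := (L (Sum.inr (p, 1))).erase x₀)
        (Q := (L (Sum.inr (p, 2))).erase x₀) (A := ((L (Sum.inr (p, 3))).erase x₀).erase x₁)
        (B := ((L (Sum.inr (p, 4))).erase x₀).erase x₁)
        (C := ((L (Sum.inr (p, 5))).erase x₀).erase x₁) (by rw [hL]) (e1 _) (e1 _) (e2 _) (e2 _)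
        (e2 _)
    simp only [mem_erase] at ha hb hc hd he
    refine ⟨![h, a, b, c, d, e], ?_, ?_, ?_, ?_⟩
    · intro i
      fin_cases i
      · exact hh
      · exact ha.2
      · exact hb.2
      · exact hc.2.2
      · exact hd.2.2
      · exact he.2.2
    · intro i hi
      fin_cases i
      · exact absurd rfl hi
      · exact ha.1
      · exact hb.1
      · exact hc.2.1
      · exact hd.2.1
      · exact he.2.1
    · intro i hi
      fin_cases i
      · exact absurd hi (by decide)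
      · exact absurd hi (by decide)
      · exact absurd hi (by decide)
      · exact hc.1
      · exact hd.1
      · exact he.1
    · intro i j hij
      rcases hij with ⟨rfl, hj⟩ | ⟨rfl, rfl⟩ | ⟨rfl, rfl⟩ | ⟨rfl, rfl⟩ | ⟨rfl, rfl⟩ | ⟨rfl, rfl⟩
      · fin_cases j
        · exact absurd rfl hj
        · exact n1
        · exact n2
        · exact n3
        · exact n4
        · exact n5
      · exact n6
      · exact n7
      · exact n8
      · exact n9
      · exact n10
  choose g hg1 hg2 hg3 hg4 using key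
  let c : V → ℕ := fun v => match v with
    | Sum.inl false => x₀
    | Sum.inl true => x₁
    | Sum.inr (p, i) => g p i
  have hR : ∀ u v, R u v → c u ≠ c v := by
    intro u v huv
    rcases u with x | ⟨p, i⟩
    · rcases v with y | ⟨q, j⟩
      · obtain ⟨rfl, rfl⟩ := huv
        exact Ne.symm hx₁.1
      · rcases huv with ⟨rfl, hj⟩ | ⟨rfl, hj⟩
        · exact Ne.symm (hg2 q j hj)
        · exact Ne.symm (hg3 q j hj)
    · rcases v with y | ⟨q, j⟩
      · exact absurd huv id
      · obtain ⟨rfl, hij⟩ := huv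
        exact hg4 p i j hij
  refine ⟨c, ?_, ?_⟩
  · rintro (x | ⟨p, i⟩)
    · cases x
      · exact hx₀
      · exact hx₁.2
    · exact hg1 p i
  · intro u v huv
    rcases adj_cases huv with h | h
    · exact hR u v h
    · exact Ne.symm (hR v u h)

/-- The six fresh parts of the lists of a wheel (colours `21, …, 42`). -/
def N : Fin 6 → Finset ℕ :=
  ![(Ico 21 43).erase 34, Ico 21 35 ∪ {41, 42}, Ico 21 37, Ico 21 28 ∪ Ico 35 39,
    Ico 21 28 ∪ Ico 37 41, Ico 21 28 ∪ Ico 39 43]

/-- The part of the lists of a wheel coming from the base vertices. -/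
def baseN (X Y : Finset ℕ) : Fin 6 → Finset ℕ := ![∅, X, X, X ∪ Y, X ∪ Y, X ∪ Y]

/-- The lists of size 21. -/
def L₀ : V → Finset ℕ
  | Sum.inl _ => range 21
  | Sum.inr (p, i) => baseN p.1.1 p.1.2 i ∪ N i

lemma N_lower (i : Fin 6) : ∀ x ∈ N i, 21 ≤ x ∧ x < 43 := by
  fin_cases i <;> decide

lemma card_N (i : Fin 6) : (N i).card = ![21, 16, 16, 11, 11, 11] i := by
  fin_cases i <;> decide

lemma baseN_lt {X Y : Finset ℕ} (hX : X ⊆ range 21) (hY : Y ⊆ range 21) (i : Fin 6) :
    ∀ x ∈ baseN X Y i, x < 21 := by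
  intro x hx
  have h1 : ∀ x ∈ X, x < 21 := fun x hx => mem_range.mp (hX hx)
  have h2 : ∀ x ∈ Y, x < 21 := fun x hx => mem_range.mp (hY hx)
  fin_cases i
  · exact absurd hx (by simp [baseN])
  · exact h1 x hx
  · exact h1 x hx
  · exact (mem_union.mp hx).elim (h1 x) (h2 x)
  · exact (mem_union.mp hx).elim (h1 x) (h2 x)
  · exact (mem_union.mp hx).elim (h1 x) (h2 x)

lemma card_L₀ (v : V) : (L₀ v).card = 21 := by
  rcases v with x | ⟨⟨⟨X, Y⟩, hp⟩, i⟩
  · simp [L₀]
  · obtain ⟨⟨⟨hX, cX⟩, ⟨hY, cY⟩⟩, hd⟩ := mem_I.mp hp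
    have hdis : Disjoint (baseN X Y i) (N i) := by
      rw [disjoint_left]
      intro x hx hx'
      have := baseN_lt hX hY i x hx
      have := (N_lower i x hx').1
      omega
    change (baseN X Y i ∪ N i).card = 21
    rw [card_union_of_disjoint hdis, card_N]
    have hXY : (X ∪ Y).card = 10 := by rw [card_union_of_disjoint hd, cX, cY]
    fin_cases i
    · simp [baseN]
    · simp [baseN, cX]
    · simp [baseN, cX]
    · simp [baseN, hXY]
    · simp [baseN, hXY]
    · simp [baseN, hXY]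

/-- The lists `L₀` admit no 5-fold colouring. -/
lemma no_five_fold : ¬ ∃ f : V → Finset ℕ, (∀ v, f v ⊆ L₀ v ∧ (f v).card = 5) ∧
    ∀ u v, G.Adj u v → Disjoint (f u) (f v) := by
  classical
  rintro ⟨f, hf, hadj⟩
  have hX := hf (Sum.inl false)
  have hY := hf (Sum.inl true)
  have hXY : Disjoint (f (Sum.inl false)) (f (Sum.inl true)) :=
    hadj _ _ (R_adj (u := Sum.inl false) (v := Sum.inl true) ⟨rfl, rfl⟩)
  have hp : (f (Sum.inl false), f (Sum.inl true)) ∈ I := mem_I.mpr ⟨⟨hX, hY⟩, hXY⟩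
  set p : {p // p ∈ I} := ⟨(f (Sum.inl false), f (Sum.inl true)), hp⟩ with hpdef
  set F : Fin 6 → Finset ℕ := fun i => f (Sum.inr (p, i)) with hF
  have hcard : ∀ i, (F i).card = 5 := fun i => (hf _).2
  have hsub0 : ∀ i, F i ⊆ baseN (f (Sum.inl false)) (f (Sum.inl true)) i ∪ N i := fun i => (hf _).1
  have hd0 : ∀ i, i ≠ 0 → Disjoint (f (Sum.inl false)) (F i) := fun i hi =>
    hadj _ _ (R_adj (u := Sum.inl false) (v := Sum.inr (p, i)) (Or.inl ⟨rfl, hi⟩))
  have hd1 : ∀ i : Fin 6, 3 ≤ i.val → Disjoint (f (Sum.inl true)) (F i) := fun i hi =>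
    hadj _ _ (R_adj (u := Sum.inl true) (v := Sum.inr (p, i)) (Or.inr ⟨rfl, hi⟩))
  have hdW : ∀ i j, W i j → Disjoint (F i) (F j) := fun i j hij =>
    hadj _ _ (R_adj (u := Sum.inr (p, i)) (v := Sum.inr (p, j)) ⟨rfl, hij⟩)
  have hsub : ∀ i, F i ⊆ N i := by
    intro i x hx
    rcases mem_union.mp (hsub0 i hx) with h | h
    · exfalso
      have h0 := fun hi => disjoint_right.mp (hd0 i hi) hx
      have h1 := fun hi => disjoint_right.mp (hd1 i hi) hx
      fin_cases i
      · exact absurd h (by simp [baseN])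
      · exact h0 (by decide) h
      · exact h0 (by decide) h
      · exact (mem_union.mp h).elim (h0 (by decide)) (h1 (by decide))
      · exact (mem_union.mp h).elim (h0 (by decide)) (h1 (by decide))
      · exact (mem_union.mp h).elim (h0 (by decide)) (h1 (by decide))
    · exact h
  -- count
  have htot : ∑ i : Fin 6, (F i).card = 30 := by simp [hcard]
  have hcount : ∀ i, (F i).card = ∑ c ∈ Ico 21 43, (if c ∈ F i then 1 else 0) := by
    intro i
    rw [← card_filter]
    congr 1
    ext c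
    simp only [mem_filter, mem_Ico]
    exact ⟨fun h => ⟨N_lower i c (hsub i h), h⟩, fun h => h.2⟩
  have hswap : ∑ i : Fin 6, (F i).card =
      ∑ c ∈ Ico 21 43, ∑ i : Fin 6, (if c ∈ F i then 1 else 0) := by
    rw [sum_congr rfl (fun i _ => hcount i), sum_comm]
  have hle : ∀ i j, W i j → ∀ c, (if c ∈ F i then 1 else 0) + (if c ∈ F j then 1 else 0) ≤ 1 := by
    intro i j hij c
    by_cases h1 : c ∈ F i
    · have := disjoint_left.mp (hdW i j hij) h1
      simp [h1, this]
    · simp only [h1, if_false, zero_add]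
      split_ifs <;> simp
  have hzero : ∀ i c, c ∉ N i → (if c ∈ F i then 1 else 0) = 0 := by
    intro i c hc
    rw [if_neg (fun h => hc (hsub i h))]
  have hbound : ∀ c ∈ Ico 21 43, ∑ i : Fin 6, (if c ∈ F i then 1 else 0) ≤
      if c < 28 then 2 else 1 := by
    intro c hc
    rw [Fin.sum_univ_six]
    have w01 := hle 0 1 (Or.inl ⟨rfl, by decide⟩) c
    have w02 := hle 0 2 (Or.inl ⟨rfl, by decide⟩) c
    have w03 := hle 0 3 (Or.inl ⟨rfl, by decide⟩) c
    have w04 := hle 0 4 (Or.inl ⟨rfl, by decide⟩) c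
    have w05 := hle 0 5 (Or.inl ⟨rfl, by decide⟩) c
    have w12 := hle 1 2 (Or.inr (Or.inl ⟨rfl, rfl⟩)) c
    have w23 := hle 2 3 (Or.inr (Or.inr (Or.inl ⟨rfl, rfl⟩))) c
    have w34 := hle 3 4 (Or.inr (Or.inr (Or.inr (Or.inl ⟨rfl, rfl⟩)))) c
    have w45 := hle 4 5 (Or.inr (Or.inr (Or.inr (Or.inr (Or.inl ⟨rfl, rfl⟩))))) c
    have w51 := hle 5 1 (Or.inr (Or.inr (Or.inr (Or.inr (Or.inr ⟨rfl, rfl⟩))))) c
    have z0 := hzero 0 c
    have z1 := hzero 1 c
    have z2 := hzero 2 c
    have z3 := hzero 3 c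
    have z4 := hzero 4 c
    have z5 := hzero 5 c
    generalize (if c ∈ F 0 then 1 else 0) = b0 at *
    generalize (if c ∈ F 1 then 1 else 0) = b1 at *
    generalize (if c ∈ F 2 then 1 else 0) = b2 at *
    generalize (if c ∈ F 3 then 1 else 0) = b3 at *
    generalize (if c ∈ F 4 then 1 else 0) = b4 at *
    generalize (if c ∈ F 5 then 1 else 0) = b5 at *
    rw [mem_Ico] at hc
    split_ifs with h28
    · omega
    · obtain ⟨hc1, hc2⟩ := hc
      have h28' : 28 ≤ c := by omega
      clear h28 hc1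
      interval_cases c
      all_goals
        first
          | (have y3 := z3 (by decide); have y4 := z4 (by decide); have y5 := z5 (by decide); omega)
          | (have y1 := z1 (by decide); have y4 := z4 (by decide); have y5 := z5 (by decide); omega)
          | (have y1 := z1 (by decide); have y2 := z2 (by decide); have y5 := z5 (by decide); omega)
          | (have y1 := z1 (by decide); have y2 := z2 (by decide); have y3 := z3 (by decide); omega)
          | (have y2 := z2 (by decide); have y3 := z3 (by decide); have y4 := z4 (by decide); omega)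
  have hsum : ∑ c ∈ Ico 21 43, ∑ i : Fin 6, (if c ∈ F i then 1 else 0) ≤
      ∑ c ∈ Ico 21 43, (if c < 28 then 2 else 1) := sum_le_sum hbound
  have h29 : ∑ c ∈ Ico 21 43, (if c < 28 then 2 else 1) = 29 := by decide
  omega

end Pool.Agent.Lib.MP_aa5d6e_co
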